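import Mathlib
import Pool.Agent.Q40.OddRec

set_option autoImplicit false

/-!
# The abundancy rises infinitely often along the record setters of the scaled surplus

The product `N` of the odd primes up to a prime `q ≥ 17` is a record setter of `g` and
`σ(N)/N ≥ ∑_{3 ≤ p ≤ q} 1/p`, which is unbounded.
-/

namespace Pool.Agent.Results.MP_04e67f_nt.InfinitelyManyRises

open Finset

/-- `n` is a positive integer with `σ(n) ≥ 2 n` -/
def NonDeficient (n : ℕ) : Prop := 0 < n ∧ 2 * n ≤ ∑ d ∈ n.divisors, d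

/-- `g(n) = (n/φ(n) - 2) √n` -/
noncomputable def g (n : ℕ) : ℝ := ((n : ℝ) / (Nat.totient n : ℝ) - 2) * Real.sqrt n

/-- the abundancy `h(n) = σ(n)/n` -/
noncomputable def h (n : ℕ) : ℝ := ((∑ d ∈ n.divisors, d : ℕ) : ℝ) / n

/-- the set `B₁` of odd non-deficient record setters of `g` -/
def B1 : Set ℕ :=
  {n | Odd n ∧ NonDeficient n ∧ ∀ k : ℕ, k < n → Odd k → NonDeficient k → g k < g n}

/-- `B₁` is infinite, and in its increasing enumeration (`Nat.nth`, index starting at `0`) the
abundancy increases from one element to the next for infinitely many indices. -/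
theorem result : B1.Infinite ∧
    {j : ℕ | h (Nat.nth (fun n => n ∈ B1) j) < h (Nat.nth (fun n => n ∈ B1) (j + 1))}.Infinite := by
  classical
  have hinf : B1.Infinite := Pool.Agent.Q40.OddRec.B1_infinite
  refine ⟨hinf, ?_⟩
  intro hfin
  obtain ⟨J, hJ⟩ := hfin.bddAbove
  have hle : ∀ j, J < j → h (Nat.nth (fun n => n ∈ B1) (j + 1)) ≤ h (Nat.nth (fun n => n ∈ B1) j) := by
    intro j hj
    by_contra hcon
    push Not at hcon
    have := hJ (show j ∈ {j : ℕ | h (Nat.nth (fun n => n ∈ B1) j) <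
      h (Nat.nth (fun n => n ∈ B1) (j + 1))} from hcon)
    omega
  have hle2 : ∀ i, h (Nat.nth (fun n => n ∈ B1) (J + 1 + i)) ≤ h (Nat.nth (fun n => n ∈ B1) (J + 1)) := by
    intro i
    induction i with
    | zero => exact le_rfl
    | succ i ih => exact (hle (J + 1 + i) (by omega)).trans ih
  obtain ⟨q, hq, hq17, hqK, hqC⟩ := Pool.Agent.Q40.OddRec.exists_h_big
    (h (Nat.nth (fun n => n ∈ B1) (J + 1))) (Nat.nth (fun n => n ∈ B1) (J + 1))
  set N := Pool.Agent.Q40.OddRec.NN q with hN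
  have hNB : N ∈ B1 := Pool.Agent.Q40.OddRec.NN_mem_B1 q hq hq17
  have hlt : Nat.nth (fun n => n ∈ B1) (J + 1) < N :=
    lt_of_lt_of_le hqK (Pool.Agent.Q40.OddRec.le_NN q hq (by omega))
  have e1 : Nat.nth (fun n => n ∈ B1) (Nat.count (fun n => n ∈ B1) N) = N := Nat.nth_count hNB
  have h1 : J + 1 < Nat.count (fun n => n ∈ B1) N := by
    by_contra hcon
    push Not at hcon
    have h5 : Nat.nth (fun n => n ∈ B1) (Nat.count (fun n => n ∈ B1) N) ≤
        Nat.nth (fun n => n ∈ B1) (J + 1) := (Nat.nth_strictMono hinf).monotone hcon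
    rw [e1] at h5
    omega
  have h2 := hle2 (Nat.count (fun n => n ∈ B1) N - (J + 1))
  rw [show J + 1 + (Nat.count (fun n => n ∈ B1) N - (J + 1)) = Nat.count (fun n => n ∈ B1) N by omega,
    e1] at h2
  have h3 : Pool.Agent.Q40.OddRec.h N = h N := rfl
  rw [h3] at hqC
  linarith

end Pool.Agent.Results.MP_04e67f_nt.InfinitelyManyRises
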